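import Mathlib

open CategoryTheory TopologicalSpace

namespace Pool.Agent.Lib.C909fd

/-- A precosheaf of abelian groups on a topological space `X`: a covariant functor from the poset
of open subsets of `X` (ordered by inclusion) to the category of abelian groups. -/
abbrev Precosheaf (X : TopCat.{0}) : Type 1 := Opens X ⥤ AddCommGrpCat.{0}

open scoped Classical in
/-- For a precosheaf `A` and a family of open sets `U i` with union `U`, the homomorphism
`⨁ᵢ A(Uᵢ) → A(U)` whose component at `i` is induced by the inclusion `Uᵢ ⊆ U`. -/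
noncomputable def sumMap {X : TopCat.{0}} (A : Precosheaf X) {ι : Type} (U : ι → Opens X) :
    (DirectSum ι fun i => A.obj (U i)) →+ A.obj (iSup U) :=
  DirectSum.toAddMonoid fun i => (A.map (homOfLE (le_iSup U i))).hom

open scoped Classical in
/-- For a precosheaf `A` and a family of open sets `U i`, the homomorphism
`⨁ᵢⱼ A(Uᵢ ∩ Uⱼ) → ⨁ᵢ A(Uᵢ)` which is the difference of the two maps induced by the inclusions
`Uᵢ ∩ Uⱼ ⊆ Uᵢ` and `Uᵢ ∩ Uⱼ ⊆ Uⱼ`. -/
noncomputable def diffMap {X : TopCat.{0}} (A : Precosheaf X) {ι : Type} (U : ι → Opens X) :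
    (DirectSum (ι × ι) fun p => A.obj (U p.1 ⊓ U p.2)) →+ DirectSum ι fun i => A.obj (U i) :=
  DirectSum.toAddMonoid fun p =>
    (DirectSum.of (fun i => A.obj (U i)) p.1).comp
        (A.map (homOfLE (inf_le_left : U p.1 ⊓ U p.2 ≤ U p.1))).hom -
      (DirectSum.of (fun i => A.obj (U i)) p.2).comp
        (A.map (homOfLE (inf_le_right : U p.1 ⊓ U p.2 ≤ U p.2))).hom

/-- A precosheaf `A` is a cosheaf if for every family `(Uᵢ)` of open sets with union `U` the
sequence `⨁ᵢⱼ A(Uᵢ ∩ Uⱼ) → ⨁ᵢ A(Uᵢ) → A(U) → 0` is exact. -/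
def IsCosheaf {X : TopCat.{0}} (A : Precosheaf X) : Prop :=
  ∀ (ι : Type) (U : ι → Opens X),
    Function.Exact (diffMap A U) (sumMap A U) ∧ Function.Surjective (sumMap A U)

/-- The category of cosheaves of abelian groups on `X`, a full subcategory of the category of
precosheaves. -/
abbrev CosheafCat (X : TopCat.{0}) : Type 1 :=
  ObjectProperty.FullSubcategory (fun A : Precosheaf X => IsCosheaf A)

end Pool.Agent.Lib.C909fd
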