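import Pool.Agent.Lib.C909fd.Cosheaf

open CategoryTheory TopologicalSpace

namespace Pool.Agent.Lib.C909fd

section General

variable {X : TopCat.{0}} (A : Precosheaf X) {ι : Type} (U : ι → Opens X)

open scoped Classical in
lemma sumMap_of (i : ι) (a : A.obj (U i)) :
    sumMap A U (DirectSum.of (fun i => A.obj (U i)) i a) =
      (A.map (homOfLE (le_iSup U i))).hom a := by
  simp [sumMap]

open scoped Classical in
lemma diffMap_of (i j : ι) (a : A.obj (U i ⊓ U j)) :
    diffMap A U (DirectSum.of (fun p : ι × ι => A.obj (U p.1 ⊓ U p.2)) (i, j) a) =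
      DirectSum.of (fun i => A.obj (U i)) i
        ((A.map (homOfLE (inf_le_left : U i ⊓ U j ≤ U i))).hom a) -
      DirectSum.of (fun i => A.obj (U i)) j
        ((A.map (homOfLE (inf_le_right : U i ⊓ U j ≤ U j))).hom a) := by
  simp [diffMap]

lemma map_map_apply {V W Z : Opens X} (f : V ⟶ W) (g : W ⟶ Z) (h : V ⟶ Z) (a : A.obj V) :
    (A.map g).hom ((A.map f).hom a) = (A.map h).hom a := by
  have : h = f ≫ g := Subsingleton.elim _ _
  rw [this, A.map_comp]
  rfl

lemma sumMap_diffMap (x) : sumMap A U (diffMap A U x) = 0 := by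
  classical
  induction x using DirectSum.induction_on with
  | zero => simp
  | of p x =>
    obtain ⟨i, j⟩ := p
    rw [diffMap_of, map_sub, sumMap_of, sumMap_of,
      map_map_apply A _ _ (homOfLE (inf_le_left.trans (le_iSup U i))),
      map_map_apply A _ _ (homOfLE (inf_le_left.trans (le_iSup U i))), sub_self]
  | add x y hx hy => rw [map_add, map_add, hx, hy, add_zero]

/-- A criterion for the cosheaf condition at a family having a good member. -/
lemma exact_of_good (i₀ : ι)
    (h1 : ∀ i, Function.Surjective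
      (A.map (homOfLE (inf_le_left : U i ⊓ U i₀ ≤ U i))).hom)
    (h2 : Function.Bijective (A.map (homOfLE (le_iSup U i₀))).hom) :
    Function.Exact (diffMap A U) (sumMap A U) ∧ Function.Surjective (sumMap A U) := by
  classical
  -- every element of the direct sum is congruent to one concentrated at `i₀`
  have key : ∀ x : DirectSum ι fun i => A.obj (U i), ∃ c : A.obj (U i₀), ∃ y,
      x = DirectSum.of (fun i => A.obj (U i)) i₀ c + diffMap A U y := by
    intro x
    induction x using DirectSum.induction_on with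
    | zero => exact ⟨0, 0, by simp⟩
    | of i a =>
      obtain ⟨b, hb⟩ := h1 i a
      refine ⟨(A.map (homOfLE (inf_le_right : U i ⊓ U i₀ ≤ U i₀))).hom b,
        DirectSum.of (fun p : ι × ι => A.obj (U p.1 ⊓ U p.2)) (i, i₀) b, ?_⟩
      rw [diffMap_of, hb]
      abel
    | add x y hx hy =>
      obtain ⟨c, z, hc⟩ := hx
      obtain ⟨c', z', hc'⟩ := hy
      refine ⟨c + c', z + z', ?_⟩
      rw [hc, hc', map_add, map_add]
      abel
  constructor
  · intro x
    constructor
    · intro hx
      obtain ⟨c, y, rfl⟩ := key x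
      rw [map_add, sumMap_of, sumMap_diffMap, add_zero] at hx
      have : c = 0 := h2.1 (by rw [hx, map_zero])
      exact ⟨y, by simp [this]⟩
    · rintro ⟨y, rfl⟩
      exact sumMap_diffMap A U y
  · intro a
    obtain ⟨c, hc⟩ := h2.2 a
    exact ⟨DirectSum.of (fun i => A.obj (U i)) i₀ c, by rw [sumMap_of, hc]⟩

lemma exact_of_trivial (h1 : ∀ i, Subsingleton (A.obj (U i)))
    (h2 : Subsingleton (A.obj (iSup U))) :
    Function.Exact (diffMap A U) (sumMap A U) ∧ Function.Surjective (sumMap A U) := by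
  classical
  have h3 : Subsingleton (DirectSum ι fun i => A.obj (U i)) := by
    refine ⟨fun x y => ?_⟩
    ext i
    exact Subsingleton.elim _ _
  exact ⟨fun x => ⟨fun _ => ⟨0, Subsingleton.elim _ _⟩, fun _ => Subsingleton.elim _ _⟩,
    fun x => ⟨0, Subsingleton.elim _ _⟩⟩

variable {A}

/-- The universal property of a cosheaf. -/
lemma exists_desc (hA : IsCosheaf A) {T : Type} [AddCommGroup T] (φ : ∀ i, A.obj (U i) →+ T)
    (hφ : ∀ i j (a : A.obj (U i ⊓ U j)),
      φ i ((A.map (homOfLE (inf_le_left : U i ⊓ U j ≤ U i))).hom a) =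
      φ j ((A.map (homOfLE (inf_le_right : U i ⊓ U j ≤ U j))).hom a)) :
    ∃ ψ : A.obj (iSup U) →+ T, ∀ i a, ψ ((A.map (homOfLE (le_iSup U i))).hom a) = φ i a := by
  classical
  obtain ⟨h1, h2⟩ := hA ι U
  let Φ : (DirectSum ι fun i => A.obj (U i)) →+ T := DirectSum.toAddMonoid φ
  have hΦ : ∀ x, Φ (diffMap A U x) = 0 := by
    intro x
    induction x using DirectSum.induction_on with
    | zero => simp
    | of p x =>
      obtain ⟨i, j⟩ := p
      rw [diffMap_of, map_sub]
      simp only [Φ, DirectSum.toAddMonoid_of]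
      rw [hφ i j x, sub_self]
    | add x y hx hy => rw [map_add, map_add, hx, hy, add_zero]
  have hker : (sumMap A U).ker ≤ Φ.ker := by
    intro x hx
    obtain ⟨y, rfl⟩ := (h1 x).1 hx
    exact hΦ y
  refine ⟨AddMonoidHom.liftOfSurjective (sumMap A U) h2 ⟨Φ, hker⟩, fun i a => ?_⟩
  have h := AddMonoidHom.liftOfRightInverse_comp_apply (sumMap A U)
    (Function.surjInv h2) (Function.rightInverse_surjInv h2) ⟨Φ, hker⟩
    (DirectSum.of (fun i => A.obj (U i)) i a)
  rw [sumMap_of] at h
  simpa [Φ, AddMonoidHom.liftOfSurjective] using h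

/-- Joint surjectivity of the maps of a cosheaf along a covering. -/
lemma hom_ext_cover (hA : IsCosheaf A) {T : Type} [AddCommGroup T] (ψ ψ' : A.obj (iSup U) →+ T)
    (h : ∀ i a, ψ ((A.map (homOfLE (le_iSup U i))).hom a) =
      ψ' ((A.map (homOfLE (le_iSup U i))).hom a)) : ψ = ψ' := by
  classical
  obtain ⟨_, h2⟩ := hA ι U
  have : ψ.comp (sumMap A U) = ψ'.comp (sumMap A U) := by
    ext i a
    simpa [sumMap_of] using h i a
  ext x
  obtain ⟨y, rfl⟩ := h2 x
  exact DFunLike.congr_fun this y

variable {U}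

/-- The universal property for a covering by two open sets. -/
lemma exists_desc₂ (hA : IsCosheaf A) {P Q W : Opens X} (hP : P ≤ W) (hQ : Q ≤ W)
    (hW : W ≤ P ⊔ Q) {T : Type} [AddCommGroup T] (φP : A.obj P →+ T) (φQ : A.obj Q →+ T)
    (hφ : ∀ a : A.obj (P ⊓ Q), φP ((A.map (homOfLE inf_le_left)).hom a) =
      φQ ((A.map (homOfLE inf_le_right)).hom a)) :
    ∃ ψ : A.obj W →+ T, (∀ a, ψ ((A.map (homOfLE hP)).hom a) = φP a) ∧
      ∀ a, ψ ((A.map (homOfLE hQ)).hom a) = φQ a := by
  obtain rfl : W = ⨆ b : Bool, (bif b then P else Q) := by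
    rw [iSup_bool_eq]
    exact le_antisymm hW (sup_le hP hQ)
  obtain ⟨ψ, hψ⟩ := exists_desc (A := A) (fun b : Bool => bif b then P else Q) hA (T := T)
    (fun b => match b with
      | true => φP
      | false => φQ) (by
      rintro (_ | _) (_ | _) a
      · rfl
      · have h := hφ ((A.map (homOfLE (le_of_eq (inf_comm _ _) : Q ⊓ P ≤ P ⊓ Q))).hom a)
        rw [map_map_apply A _ _ (homOfLE inf_le_right),
          map_map_apply A _ _ (homOfLE inf_le_left)] at h
        exact h.symm
      · exact hφ a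
      · rfl)
  exact ⟨ψ, fun a => hψ true a, fun a => hψ false a⟩

lemma hom_ext_cover₂ (hA : IsCosheaf A) {P Q W : Opens X} (hP : P ≤ W) (hQ : Q ≤ W)
    (hW : W ≤ P ⊔ Q) {T : Type} [AddCommGroup T] (ψ ψ' : A.obj W →+ T)
    (h1 : ∀ a, ψ ((A.map (homOfLE hP)).hom a) = ψ' ((A.map (homOfLE hP)).hom a))
    (h2 : ∀ a, ψ ((A.map (homOfLE hQ)).hom a) = ψ' ((A.map (homOfLE hQ)).hom a)) : ψ = ψ' := by
  obtain rfl : W = ⨆ b : Bool, (bif b then P else Q) := by
    rw [iSup_bool_eq]
    exact le_antisymm hW (sup_le hP hQ)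
  apply hom_ext_cover (fun b : Bool => bif b then P else Q) hA
  rintro (_ | _) a
  · exact h2 a
  · exact h1 a

end General


lemma limit_zero {I : Type} [LinearOrder I] (hb : ∀ s : ℕ → I, ∃ b, ∀ n, s n ≤ b)
    (T : I → Type) (r : ∀ {i j : I}, i ≤ j → T j → T i)
    (r_comp : ∀ {i j k : I} (h : i ≤ j) (h' : j ≤ k) (x : T k), r h (r h' x) = r (h.trans h') x)
    (hno : ∀ s : ∀ i, T i, ¬ ∀ i j (h : i ≤ j), r h (s j) = s i)
    (z : ∀ i, T i →₀ ℤ) (hz : ∀ i j (h : i ≤ j), Finsupp.mapDomain (r h) (z j) = z i) :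
    ∀ i, z i = 0 := by
  classical
  by_contra hcon
  push Not at hcon
  obtain ⟨i₀, hi₀⟩ := hcon
  have hsub : ∀ i j (h : i ≤ j), (z i).support ⊆ (z j).support.image (r h) := by
    intro i j h
    rw [← hz i j h]
    exact Finsupp.mapDomain_support
  have hmono : ∀ i j, i ≤ j → (z i).support.card ≤ (z j).support.card := by
    intro i j h
    exact (Finset.card_le_card (hsub i j h)).trans Finset.card_image_le
  -- the cardinality attains its maximum
  have hmax : ∃ b, ∀ j, (z j).support.card ≤ (z b).support.card := by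
    by_contra hcon
    push Not at hcon
    choose nxt hnxt using hcon
    let s : ℕ → I := fun k => Nat.rec i₀ (fun _ x => nxt x) k
    have hs : ∀ k, k ≤ (z (s k)).support.card := by
      intro k
      induction k with
      | zero => exact Nat.zero_le _
      | succ k ih => exact lt_of_le_of_lt ih (hnxt (s k))
    obtain ⟨b, hb⟩ := hb s
    have h1 := hs ((z b).support.card + 1)
    have h2 := hmono _ _ (hb ((z b).support.card + 1))
    omega
  obtain ⟨b', hb'⟩ := hmax
  obtain ⟨b, hbi, hbmax⟩ : ∃ b, i₀ ≤ b ∧ ∀ j, (z j).support.card ≤ (z b).support.card :=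
    ⟨max i₀ b', le_max_left _ _, fun j => (hb' j).trans (hmono _ _ (le_max_right _ _))⟩
  have hbz : z b ≠ 0 := by
    intro h
    apply hi₀
    rw [← hz i₀ b hbi, h, Finsupp.mapDomain_zero]
  have himg : ∀ i j (h : i ≤ j), b ≤ i → (z j).support.image (r h) = (z i).support ∧
      Set.InjOn (r h) (z j).support := by
    intro i j h hi
    have h1 : ((z j).support.image (r h)).card ≤ (z i).support.card :=
      (Finset.card_image_le.trans (hbmax j)).trans (hmono _ _ hi)
    have h2 := Finset.eq_of_subset_of_card_le (hsub i j h) h1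
    refine ⟨h2.symm, Finset.card_image_iff.1 (le_antisymm Finset.card_image_le ?_)⟩
    rw [← h2]
    exact (hbmax j).trans (hmono _ _ hi)
  obtain ⟨s₀, hs₀⟩ := Finsupp.support_nonempty_iff.2 hbz
  have hex : ∀ j (h : b ≤ j), ∃ t ∈ (z j).support, r h t = s₀ := by
    intro j h
    have := (himg b j h le_rfl).1
    rw [← this] at hs₀
    simpa using hs₀
  choose t ht1 ht2 using hex
  have hcompat : ∀ i j (hi : b ≤ i) (h : i ≤ j), r h (t j (hi.trans h)) = t i hi := by
    intro i j hi h
    have h1 : r h (t j (hi.trans h)) ∈ (z i).support := by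
      rw [← (himg i j h hi).1]
      exact Finset.mem_image_of_mem _ (ht1 j _)
    apply (himg b i hi le_rfl).2 h1 (ht1 i hi)
    rw [r_comp, ht2, ht2]
  apply hno (fun i => r (le_max_left i b) (t (max i b) (le_max_right i b)))
  intro i j h
  rw [r_comp]
  rw [← hcompat (max i b) (max j b) (le_max_right i b) (max_le_max h le_rfl), r_comp]

section Space

/-- The set of points of the space: the points of `I` and one more point `none`. -/
def Pt (I : Type) : Type := Option I

variable (I : Type) [LinearOrder I] [Nonempty I]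

/-- The topology: a set `V` is open when `V ∩ I` is an upper set of `I` and, if `V` contains the
extra point, `V ∩ I` is not empty. -/
instance : TopologicalSpace (Pt I) where
  IsOpen V := (∀ i j : I, i ≤ j → (some i : Option I) ∈ V → (some j : Option I) ∈ V) ∧
    ((none : Option I) ∈ V → ∃ i : I, (some i : Option I) ∈ V)
  isOpen_univ := ⟨fun _ _ _ _ => trivial, fun _ => ⟨Classical.arbitrary I, trivial⟩⟩
  isOpen_inter := by
    rintro V W ⟨h1, h2⟩ ⟨h3, h4⟩
    refine ⟨fun i j hij hi => ⟨h1 i j hij hi.1, h3 i j hij hi.2⟩, fun h => ?_⟩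
    obtain ⟨i, hi⟩ := h2 h.1
    obtain ⟨j, hj⟩ := h4 h.2
    exact ⟨max i j, h1 i _ (le_max_left i j) hi, h3 j _ (le_max_right i j) hj⟩
  isOpen_sUnion := by
    intro S hS
    refine ⟨?_, ?_⟩
    · rintro i j hij ⟨V, hV, hi⟩
      exact ⟨V, hV, (hS V hV).1 i j hij hi⟩
    · rintro ⟨V, hV, hi⟩
      obtain ⟨i, hi⟩ := (hS V hV).2 hi
      exact ⟨i, V, hV, hi⟩

/-- The space as an object of `TopCat`. -/
abbrev Sp : TopCat.{0} := TopCat.of (Pt I)

variable {I}

/-- The extra point. -/
def pt : Pt I := (none : Option I)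

/-- The other points. -/
def inI (i : I) : Pt I := (some i : Option I)

lemma upper (V : Opens (Sp I)) {i j : I} (hij : i ≤ j) (hi : inI i ∈ V) : inI j ∈ V :=
  V.2.1 i j hij hi

lemma exists_of_pt (V : Opens (Sp I)) (h : pt ∈ V) : ∃ i : I, inI i ∈ V :=
  V.2.2 h

/-- Injections from the complement of `V` in `I` to `ℕ` whose image has infinite complement. -/
def Inj (V : Opens (Sp I)) : Type :=
  {f : {j : I // inI j ∉ V} → ℕ // Function.Injective f ∧ (Set.range f)ᶜ.Infinite}

/-- Restriction of injections. -/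
def res {V W : Opens (Sp I)} (h : V ≤ W) (f : Inj V) : Inj W :=
  ⟨fun j => f.1 ⟨j.1, fun hj => j.2 (h hj)⟩, by
    constructor
    · intro a b hab
      have := f.2.1 hab
      simp only [Subtype.mk.injEq] at this
      exact Subtype.ext this
    · refine f.2.2.mono ?_
      rw [Set.compl_subset_compl]
      rintro _ ⟨a, rfl⟩
      exact ⟨_, rfl⟩⟩

lemma res_refl {V : Opens (Sp I)} (h : V ≤ V) : res h = id := rfl

lemma res_comp {V W Z : Opens (Sp I)} (h : V ≤ W) (h' : W ≤ Z) :
    res h' ∘ res h = res (h.trans h') := rfl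

/-- The first cosheaf. -/
noncomputable def cA : Precosheaf (Sp I) where
  obj V := AddCommGrpCat.of (Inj V →₀ ℤ)
  map h := AddCommGrpCat.ofHom (Finsupp.mapDomain.addMonoidHom (res h.le))
  map_id V := by
    ext x
    simp [res_refl]
  map_comp f g := by
    apply AddCommGrpCat.hom_ext
    apply AddMonoidHom.ext
    intro x
    exact Finsupp.mapDomain_comp (v := x) (f := res f.le) (g := res g.le)

/-- The second cosheaf. -/
noncomputable def cB : Precosheaf (Sp I) where
  obj V := AddCommGrpCat.of (PLift (pt ∉ V) → (Inj V →₀ ℤ))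
  map {V W} h := AddCommGrpCat.ofHom
    { toFun := fun g hW => Finsupp.mapDomain (res h.le) (g ⟨fun hV => hW.down (h.le hV)⟩)
      map_zero' := by
        funext hW
        exact Finsupp.mapDomain_zero
      map_add' := by
        intro g g'
        funext hW
        exact Finsupp.mapDomain_add }
  map_id V := by
    apply AddCommGrpCat.hom_ext
    apply AddMonoidHom.ext
    intro x
    funext h
    exact Finsupp.mapDomain_id
  map_comp f g := by
    apply AddCommGrpCat.hom_ext
    apply AddMonoidHom.ext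
    intro x
    funext h
    exact Finsupp.mapDomain_comp (v := x _) (f := res f.le) (g := res g.le)

/-- The morphism between them. -/
noncomputable def cf : (cA : Precosheaf (Sp I)) ⟶ cB where
  app V := AddCommGrpCat.ofHom
    { toFun := fun a _ => a
      map_zero' := rfl
      map_add' := fun _ _ => rfl }
  naturality V W h := rfl

lemma res_surjective (hI : ∀ i : I, (Set.Iio i).Countable) {V W : Opens (Sp I)} (h : V ≤ W)
    {m : I} (hm : inI m ∈ V) : Function.Surjective (res h) := by
  classical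
  intro f
  -- the complement of `V` in `I` is countable
  have hc : Countable {j : I // inI j ∉ V} := by
    have : ({j : I | inI j ∉ V}).Countable := by
      refine (hI m).mono ?_
      intro j hj
      by_contra hcon
      exact hj (upper V (not_lt.1 hcon) hm)
    exact this.to_subtype
  -- the complement of the range of `f` is infinite; split it
  obtain ⟨hf1, hf2⟩ := f.2
  let e : ℕ → ℕ := Nat.nth (· ∈ (Set.range f.1)ᶜ)
  have he1 : StrictMono e := Nat.nth_strictMono hf2
  have he2 : ∀ n, e n ∈ (Set.range f.1)ᶜ := fun n => Nat.nth_mem_of_infinite hf2 n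
  obtain ⟨c, hc'⟩ := exists_injective_nat {j : I // inI j ∉ V}
  let g : {j : I // inI j ∉ V} → ℕ := fun j =>
    if hj : inI j.1 ∈ W then e (2 * c j) else f.1 ⟨j.1, hj⟩
  have hg1 : Function.Injective g := by
    intro a b hab
    simp only [g] at hab
    split_ifs at hab with ha hb hb
    · have := he1.injective hab
      exact hc' (by omega)
    · exact absurd ⟨_, hab.symm⟩ (he2 (2 * c a))
    · exact absurd ⟨_, hab⟩ (he2 (2 * c b))
    · have := hf1 hab
      simp only [Subtype.mk.injEq] at this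
      exact Subtype.ext this
  have hg2 : (Set.range g)ᶜ.Infinite := by
    have : Set.range (fun n => e (2 * n + 1)) ⊆ (Set.range g)ᶜ := by
      rintro _ ⟨n, rfl⟩ ⟨a, ha⟩
      simp only [g] at ha
      split_ifs at ha with h'
      · have := he1.injective ha
        omega
      · exact he2 (2 * n + 1) ⟨_, ha⟩
    refine Set.Infinite.mono this (Set.infinite_range_of_injective ?_)
    intro a b hab
    have := he1.injective hab
    omega
  refine ⟨⟨g, hg1, hg2⟩, ?_⟩
  apply Subtype.ext
  funext j
  simp only [res, g]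
  rw [dif_neg j.2]

lemma res_injective {V W : Opens (Sp I)} (h : V ≤ W) (h' : ∀ i : I, inI i ∈ W → inI i ∈ V) :
    Function.Injective (res h) := by
  intro f g hfg
  apply Subtype.ext
  funext j
  have := congrArg Subtype.val hfg
  exact congrFun this ⟨j.1, fun hj => j.2 (h' j.1 hj)⟩

lemma isEmpty_inj [Uncountable I] {V : Opens (Sp I)} (h : ∀ i : I, inI i ∉ V) :
    IsEmpty (Inj V) := by
  refine ⟨fun f => ?_⟩
  have : Function.Injective (fun i : I => f.1 ⟨i, h i⟩) := by
    intro a b hab
    have := f.2.1 hab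
    simpa using this
  exact (not_countable_iff.2 ‹Uncountable I›) this.countable

/-- The open set of the points `j ≥ i` of `I`. -/
def opU (i : I) : Opens (Sp I) :=
  ⟨{p | ∃ j, i ≤ j ∧ p = inI j}, by
    refine ⟨?_, ?_⟩
    · rintro j k hjk ⟨l, hl, hj⟩
      obtain rfl : j = l := Option.some_injective _ hj
      exact ⟨k, hl.trans hjk, rfl⟩
    · rintro ⟨l, hl, hj⟩
      exact absurd hj (by simp [inI])⟩

/-- The open set of the points `j ≥ i` of `I` together with the extra point. -/
def opV (i : I) : Opens (Sp I) :=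
  ⟨{p | p = pt ∨ ∃ j, i ≤ j ∧ p = inI j}, by
    refine ⟨?_, ?_⟩
    · rintro j k hjk (h | ⟨l, hl, hj⟩)
      · exact absurd h (by simp [pt])
      · obtain rfl : j = l := Option.some_injective _ hj
        exact Or.inr ⟨k, hl.trans hjk, rfl⟩
    · intro _
      exact ⟨i, Or.inr ⟨i, le_rfl, rfl⟩⟩⟩

omit [LinearOrder I] [Nonempty I] in
@[simp] lemma inI_ne_pt (i : I) : inI i ≠ pt := Option.some_ne_none i

omit [LinearOrder I] [Nonempty I] in
@[simp] lemma inI_inj {i j : I} : inI i = inI j ↔ i = j := Option.some_inj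

@[simp] lemma inI_mem_opU {i j : I} : inI j ∈ opU i ↔ i ≤ j := by
  constructor
  · rintro ⟨l, hl, hj⟩
    rw [inI_inj] at hj
    exact hj ▸ hl
  · exact fun h => ⟨j, h, rfl⟩

@[simp] lemma pt_mem_opU {i : I} : pt ∉ opU i := by
  rintro ⟨l, hl, hj⟩
  exact inI_ne_pt l hj.symm

@[simp] lemma inI_mem_opV {i j : I} : inI j ∈ opV i ↔ i ≤ j := by
  constructor
  · rintro (h | ⟨l, hl, hj⟩)
    · exact absurd h (inI_ne_pt j)
    · rw [inI_inj] at hj
      exact hj ▸ hl
  · exact fun h => Or.inr ⟨j, h, rfl⟩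

@[simp] lemma pt_mem_opV {i : I} : pt ∈ opV i := Or.inl rfl

lemma le_iff {V W : Opens (Sp I)} :
    V ≤ W ↔ (pt ∈ V → pt ∈ W) ∧ ∀ i : I, inI i ∈ V → inI i ∈ W := by
  constructor
  · exact fun h => ⟨fun h' => h h', fun i h' => h h'⟩
  · rintro ⟨h1, h2⟩ p hp
    rcases p with _ | i
    · exact h1 hp
    · exact h2 i hp

lemma opU_le_opU {i j : I} (h : i ≤ j) : opU j ≤ opU i := by
  rw [le_iff]
  exact ⟨fun h => absurd h pt_mem_opU, fun k hk => by
    rw [inI_mem_opU] at *; exact h.trans hk⟩

lemma opV_le_opV {i j : I} (h : i ≤ j) : opV j ≤ opV i := by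
  rw [le_iff]
  exact ⟨fun _ => pt_mem_opV, fun k hk => by
    rw [inI_mem_opV] at *; exact h.trans hk⟩

lemma opU_le_opV (i : I) : opU i ≤ opV i := by
  rw [le_iff]
  exact ⟨fun _ => pt_mem_opV, fun k hk => by
    rw [inI_mem_opV]; rwa [inI_mem_opU] at hk⟩

/-- In a covering there is a member with the same points in `I` as the union. -/
lemma exists_good [WellFoundedLT I] {ι : Type} (U : ι → Opens (Sp I))
    (h : ∃ i : I, inI i ∈ iSup U) : ∃ k, ∀ i : I, inI i ∈ iSup U → inI i ∈ U k := by
  classical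
  let m := WellFounded.min (wellFounded_lt (α := I)) {i : I | inI i ∈ iSup U} h
  have hm : inI m ∈ iSup U := WellFounded.min_mem (wellFounded_lt (α := I)) _ h
  obtain ⟨k, hk⟩ := Opens.mem_iSup.1 hm
  refine ⟨k, fun i hi => upper (U k) ?_ hk⟩
  exact not_lt.1 (WellFounded.not_lt_min (wellFounded_lt (α := I)) _ hi)

lemma res_surj' [Uncountable I] (hI : ∀ i : I, (Set.Iio i).Countable)
    {V W : Opens (Sp I)} (h : V ≤ W) (h' : ∀ i : I, inI i ∈ W → ∃ j : I, inI j ∈ V) :
    Function.Surjective (res h) := by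
  by_cases hW : ∃ i : I, inI i ∈ W
  · obtain ⟨i, hi⟩ := hW
    obtain ⟨j, hj⟩ := h' i hi
    exact res_surjective hI h hj
  · push Not at hW
    intro f
    exact ((isEmpty_inj hW).false f).elim

lemma cA_map_surj {V W : Opens (Sp I)} (h : V ⟶ W) (hs : Function.Surjective (res h.le)) :
    Function.Surjective (cA.map h).hom := fun x => by
  obtain ⟨y, hy⟩ := Finsupp.mapDomain_surjective (M := ℤ) hs x
  exact ⟨y, hy⟩

lemma cA_map_inj {V W : Opens (Sp I)} (h : V ⟶ W) (hs : Function.Injective (res h.le)) :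
    Function.Injective (cA.map h).hom := fun x y hxy =>
  Finsupp.mapDomain_injective (M := ℤ) hs hxy

lemma cB_map_surj {V W : Opens (Sp I)} (h : V ⟶ W) (hs : Function.Surjective (res h.le)) :
    Function.Surjective (cB.map h).hom := fun g => by
  classical
  by_cases hW : pt ∈ W
  · refine ⟨0, ?_⟩
    funext hW'
    exact absurd hW hW'.down
  · obtain ⟨y, hy⟩ := Finsupp.mapDomain_surjective (M := ℤ) hs (g ⟨hW⟩)
    refine ⟨fun _ => y, ?_⟩
    funext hW'
    exact hy

lemma cB_map_inj {V W : Opens (Sp I)} (h : V ⟶ W) (hs : Function.Injective (res h.le))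
    (hW : pt ∉ W) :
    Function.Injective (cB.map h).hom := fun x y hxy => by
  funext hV
  have := congrFun hxy ⟨hW⟩
  exact Finsupp.mapDomain_injective (M := ℤ) hs this

lemma subsingleton_cA [Uncountable I] {V : Opens (Sp I)} (h : ∀ i : I, inI i ∉ V) :
    Subsingleton (cA.obj V) := by
  have := isEmpty_inj h
  exact inferInstanceAs (Subsingleton (Inj V →₀ ℤ))

lemma subsingleton_cB [Uncountable I] {V : Opens (Sp I)} (h : ∀ i : I, inI i ∉ V) :
    Subsingleton (cB.obj V) := by
  have := isEmpty_inj h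
  exact inferInstanceAs (Subsingleton (PLift (pt ∉ V) → (Inj V →₀ ℤ)))

lemma subsingleton_cB' {V : Opens (Sp I)} (h : pt ∈ V) :
    Subsingleton (cB.obj V) := by
  refine ⟨fun x y => ?_⟩
  funext hV
  exact absurd h hV.down

lemma cA_isCosheaf [WellFoundedLT I] [Uncountable I] (hI : ∀ i : I, (Set.Iio i).Countable) :
    IsCosheaf (cA : Precosheaf (Sp I)) := by
  intro ι U
  by_cases h : ∃ i : I, inI i ∈ iSup U
  · obtain ⟨k, hk⟩ := exists_good U h
    have hle : ∀ i, U i ≤ iSup U := le_iSup U
    apply exact_of_good _ U k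
    · intro i
      refine cA_map_surj _ (res_surj' hI _ fun m hm => ?_)
      exact ⟨m, hm, hk m (hle i hm)⟩
    · refine ⟨cA_map_inj _ (res_injective _ hk), cA_map_surj _ (res_surj' hI _ fun m hm => ?_)⟩
      exact ⟨m, hk m hm⟩
  · push Not at h
    exact exact_of_trivial _ U (fun i => subsingleton_cA fun j hj => h j (le_iSup U i hj))
      (subsingleton_cA h)

lemma cB_isCosheaf [WellFoundedLT I] [Uncountable I] (hI : ∀ i : I, (Set.Iio i).Countable) :
    IsCosheaf (cB : Precosheaf (Sp I)) := by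
  intro ι U
  have hle : ∀ i, U i ≤ iSup U := le_iSup U
  by_cases hpt : pt ∈ iSup U
  · obtain ⟨k, hk⟩ := Opens.mem_iSup.1 hpt
    apply exact_of_good _ U k
    · intro i
      refine cB_map_surj _ (res_surj' hI _ fun m hm => ?_)
      obtain ⟨m', hm'⟩ := exists_of_pt _ hk
      exact ⟨max m m', upper _ (le_max_left _ _) hm, upper _ (le_max_right _ _) hm'⟩
    · have h1 := subsingleton_cB' hk
      have h2 := subsingleton_cB' hpt
      exact ⟨fun x y _ => Subsingleton.elim _ _, fun y => ⟨0, Subsingleton.elim _ _⟩⟩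
  · by_cases h : ∃ i : I, inI i ∈ iSup U
    · obtain ⟨k, hk⟩ := exists_good U h
      apply exact_of_good _ U k
      · intro i
        refine cB_map_surj _ (res_surj' hI _ fun m hm => ?_)
        exact ⟨m, hm, hk m (hle i hm)⟩
      · refine ⟨cB_map_inj _ (res_injective _ hk) hpt,
          cB_map_surj _ (res_surj' hI _ fun m hm => ?_)⟩
        exact ⟨m, hk m hm⟩
    · push Not at h
      exact exact_of_trivial _ U (fun i => subsingleton_cB fun j hj => h j (le_iSup U i hj))
        (subsingleton_cB h)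

lemma eq_opV [WellFoundedLT I] (V : Opens (Sp I)) (h : pt ∈ V) : ∃ m, V = opV m := by
  have hne := exists_of_pt V h
  let m := WellFounded.min (wellFounded_lt (α := I)) {i : I | inI i ∈ V} hne
  have hm : inI m ∈ V := WellFounded.min_mem (wellFounded_lt (α := I)) _ hne
  refine ⟨m, le_antisymm ?_ ?_⟩
  · rw [le_iff]
    refine ⟨fun _ => pt_mem_opV, fun i hi => ?_⟩
    rw [inI_mem_opV]
    exact not_lt.1 (WellFounded.not_lt_min (wellFounded_lt (α := I)) _ hi)
  · rw [le_iff]
    refine ⟨fun _ => h, fun i hi => ?_⟩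
    rw [inI_mem_opV] at hi
    exact upper V hi hm

omit [Nonempty I] in
lemma exists_bound [Uncountable I] (hI : ∀ i : I, (Set.Iio i).Countable) (s : ℕ → I) :
    ∃ b, ∀ n, s n < b := by
  by_contra hcon
  push Not at hcon
  have : (Set.univ : Set I) ⊆ ⋃ n, Set.Iic (s n) := fun b _ => by
    obtain ⟨n, hn⟩ := hcon b
    exact Set.mem_iUnion.2 ⟨n, hn⟩
  have hc : (⋃ n, Set.Iic (s n)).Countable := Set.countable_iUnion fun n => by
    rw [← Set.Iio_union_right]
    exact (hI _).union (Set.countable_singleton _)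
  exact Set.not_countable_univ (hc.mono this)

/-- A natural family of homomorphisms from a cosheaf to `cA`, vanishing on the open sets which do
not contain the extra point, vanishes. -/
lemma vanish [WellFoundedLT I] [Uncountable I] (hI : ∀ i : I, (Set.Iio i).Countable)
    {C : Precosheaf (Sp I)} (hC : IsCosheaf C) (h : ∀ V, C.obj V →+ (Inj V →₀ ℤ))
    (hnat : ∀ {V W : Opens (Sp I)} (f : V ⟶ W) (c : C.obj V),
      h W ((C.map f).hom c) = Finsupp.mapDomain (res f.le) (h V c))
    (h0 : ∀ V, pt ∉ V → h V = 0) (V : Opens (Sp I)) : h V = 0 := by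
  classical
  by_cases hV : pt ∈ V
  swap
  · exact h0 V hV
  obtain ⟨m, rfl⟩ := eq_opV V hV
  have hcov : ∀ j, opV m ≤ opU m ⊔ opV j := by
    intro j
    rw [le_iff]
    refine ⟨fun _ => Or.inr pt_mem_opV, fun i hi => Or.inl ?_⟩
    have := inI_mem_opV.1 hi
    exact inI_mem_opU.2 this
  have hex : ∀ j, m ≤ j → ∀ (hj : opV j ≤ opV m), ∃ ψ : C.obj (opV m) →+ (Inj (opV j) →₀ ℤ),
      (∀ a, ψ ((C.map (homOfLE (opU_le_opV m))).hom a) = (0 : C.obj (opU m) →+ _) a) ∧
      ∀ a, ψ ((C.map (homOfLE hj)).hom a) = h (opV j) a := by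
    intro j _ hj'
    refine exists_desc₂ hC (opU_le_opV m) hj' (hcov j) 0 (h (opV j)) ?_
    intro a
    rw [hnat, h0 (opU m ⊓ opV j) (fun hh => pt_mem_opU hh.1)]
    simp
  choose ψ hψ1 hψ2 using hex
  have hcompat : ∀ p q (hmp : m ≤ p) (hpq : p ≤ q),
      (Finsupp.mapDomain.addMonoidHom (res (opV_le_opV hpq))).comp
        (ψ q (hmp.trans hpq) (opV_le_opV (hmp.trans hpq))) = ψ p hmp (opV_le_opV hmp) := by
    intro p q hmp hpq
    apply hom_ext_cover₂ hC (opU_le_opV m) (opV_le_opV (hmp.trans hpq)) (hcov q)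
    · intro a
      rw [AddMonoidHom.comp_apply, hψ1, hψ1]
      simp
    · intro a
      rw [AddMonoidHom.comp_apply, hψ2,
        ← map_map_apply C (homOfLE (opV_le_opV hpq)) (homOfLE (opV_le_opV hmp))
          (homOfLE (opV_le_opV (hmp.trans hpq))), hψ2, hnat]
      rfl
  ext1 c
  have hz : ∀ i : I, ψ (max i m) (le_max_right _ _) (opV_le_opV (le_max_right _ _)) c = 0 := by
    apply limit_zero (I := I) (fun s => ?_) (fun i => Inj (opV (max i m)))
      (fun {i j} hij => res (opV_le_opV (max_le_max hij le_rfl)))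
    · intro i j k hij hjk x
      rfl
    · intro s hs
      -- a compatible family gives an injection of `I` into `ℕ`
      have hb : ∀ a : I, ∃ b, a < b := fun a => by
        obtain ⟨b, hb⟩ := exists_bound hI (fun _ => a)
        exact ⟨b, hb 0⟩
      choose b hb using hb
      have hmem : ∀ a c : I, a < c → inI a ∉ opV (max c m) := by
        intro a c hac hh
        rw [inI_mem_opV] at hh
        exact absurd (lt_of_lt_of_le hac (le_max_left c m)) (not_lt.2 hh)
      have hval : ∀ (a c : I) (hc : b a ≤ c),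
          (s (b a)).1 ⟨a, hmem a _ (hb a)⟩ = (s c).1 ⟨a, hmem a _ ((hb a).trans_le hc)⟩ := by
        intro a c hc
        rw [← hs (b a) c hc]
        rfl
      have hinj : Function.Injective (fun a : I => (s (b a)).1 ⟨a, hmem a _ (hb a)⟩) := by
        intro a a' haa
        simp only at haa
        rw [hval a (max (b a) (b a')) (le_max_left _ _),
          hval a' (max (b a) (b a')) (le_max_right _ _)] at haa
        have := (s (max (b a) (b a'))).2.1 haa
        simpa using this
      exact (not_countable_iff.2 ‹Uncountable I›) hinj.countable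
    · intro i j hij
      have := DFunLike.congr_fun (hcompat (max i m) (max j m) (le_max_right _ _)
        (max_le_max hij le_rfl)) c
      exact this
    · obtain ⟨b, hb⟩ := exists_bound hI s
      exact ⟨b, fun n => (hb n).le⟩
  have h1 := hz m
  have h2 : ∀ (j : I) (hj : m = j) (h' : m ≤ j) (h'' : opV j ≤ opV m),
      ψ j h' h'' c = 0 → h (opV m) c = 0 := by
    rintro j rfl h' h'' h3
    have h4 := hψ2 m h' h'' c
    have h5 : (C.map (homOfLE h'')).hom c = c := by
      have : homOfLE h'' = 𝟙 (opV m) := Subsingleton.elim _ _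
      rw [this, C.map_id]
      rfl
    rw [h5] at h4
    rw [← h4, h3]
  exact h2 (max m m) (max_self m).symm _ _ h1

lemma exists_inj_top : Nonempty (Inj (⊤ : Opens (Sp I))) := by
  have h : IsEmpty {j : I // inI j ∉ (⊤ : Opens (Sp I))} := ⟨fun j => j.2 trivial⟩
  refine ⟨⟨fun _ => 0, fun a => h.elim a, ?_⟩⟩
  rw [Set.range_eq_empty, Set.compl_empty]
  exact Set.infinite_univ

omit [LinearOrder I] [Nonempty I] in
lemma balanced_of_abelian (C : Type*) [Category C] (_ : Abelian C) : Balanced C :=
  inferInstance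

/-- The category of cosheaves on the space attached to `I` is not abelian. -/
lemma not_abelian [WellFoundedLT I] [Uncountable I] (hI : ∀ i : I, (Set.Iio i).Countable) :
    IsEmpty (Abelian (CosheafCat (Sp I))) := by
  refine ⟨fun hab => ?_⟩
  let A : CosheafCat (Sp I) := ⟨cA, cA_isCosheaf hI⟩
  let B : CosheafCat (Sp I) := ⟨cB, cB_isCosheaf hI⟩
  let f : A ⟶ B := ObjectProperty.homMk cf
  have hmono : Mono f := by
    refine ⟨fun {C} g₁ g₂ hg => ?_⟩
    have hg' : g₁.hom ≫ cf = g₂.hom ≫ cf := congrArg (fun k => k.hom) hg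
    have hvan : ∀ V, (g₁.hom.app V).hom - (g₂.hom.app V).hom = 0 := by
      intro V
      refine vanish hI C.property (fun V => (g₁.hom.app V).hom - (g₂.hom.app V).hom) ?_ ?_ V
      · intro V W h c
        have e1 : (g₁.hom.app W).hom ((C.obj.map h).hom c) =
            Finsupp.mapDomain (res h.le) ((g₁.hom.app V).hom c) :=
          congrArg (fun k => k.hom c) (g₁.hom.naturality h)
        have e2 : (g₂.hom.app W).hom ((C.obj.map h).hom c) =
            Finsupp.mapDomain (res h.le) ((g₂.hom.app V).hom c) :=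
          congrArg (fun k => k.hom c) (g₂.hom.naturality h)
        show (g₁.hom.app W).hom ((C.obj.map h).hom c) - (g₂.hom.app W).hom ((C.obj.map h).hom c)
          = Finsupp.mapDomain.addMonoidHom (res h.le)
            ((g₁.hom.app V).hom c - (g₂.hom.app V).hom c)
        rw [e1, e2]
        exact (map_sub (Finsupp.mapDomain.addMonoidHom (M := ℤ) (res h.le))
          ((g₁.hom.app V).hom c) ((g₂.hom.app V).hom c)).symm
      · intro V hV
        apply AddMonoidHom.ext
        intro c
        have e := congrArg (fun k => (k.app V).hom c) hg'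
        have e' : (g₁.hom.app V).hom c = (g₂.hom.app V).hom c := congrFun e ⟨hV⟩
        show (g₁.hom.app V).hom c - (g₂.hom.app V).hom c = 0
        rw [e', sub_self]
    apply ObjectProperty.hom_ext
    apply NatTrans.ext
    funext V
    apply AddCommGrpCat.hom_ext
    exact sub_eq_zero.1 (hvan V)
  have hepi : Epi f := by
    refine ⟨fun {C} g₁ g₂ hg => ?_⟩
    have hg' : cf ≫ g₁.hom = cf ≫ g₂.hom := congrArg (fun k => k.hom) hg
    apply ObjectProperty.hom_ext
    apply NatTrans.ext
    funext V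
    apply AddCommGrpCat.hom_ext
    apply AddMonoidHom.ext
    intro b
    obtain ⟨a, ha⟩ : ∃ a, (cf.app V).hom a = b := by
      classical
      by_cases hV : pt ∈ V
      · refine ⟨0, ?_⟩
        funext h
        exact absurd hV h.down
      · exact ⟨b ⟨hV⟩, rfl⟩
    rw [← ha]
    exact congrArg (fun k => (k.app V).hom a) hg'
  have hbal : Balanced (CosheafCat (Sp I)) := balanced_of_abelian _ hab
  have hiso : IsIso f := isIso_of_mono_of_epi f
  obtain ⟨g, hg1, -⟩ := hiso.out
  have hg1' : cf ≫ g.hom = 𝟙 (cA : Precosheaf (Sp I)) := congrArg (fun k => k.hom) hg1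
  obtain ⟨x⟩ := exists_inj_top (I := I)
  let a : Inj (⊤ : Opens (Sp I)) →₀ ℤ := Finsupp.single x 1
  have h1 : (g.hom.app ⊤).hom ((cf.app ⊤).hom a) = a :=
    congrArg (fun k => (k.app ⊤).hom a) hg1'
  have h2 : (cf.app (⊤ : Opens (Sp I))).hom a = 0 :=
    (subsingleton_cB' (V := (⊤ : Opens (Sp I))) trivial).elim _ _
  rw [h2, map_zero] at h1
  have h3 : (Finsupp.single x 1 : Inj (⊤ : Opens (Sp I)) →₀ ℤ) x = 0 := by
    show a x = 0
    rw [← h1]
    rfl
  simp at h3

end Space

end Pool.Agent.Lib.C909fd
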